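import Pool.Agent.D0H35.CX.Apex
import Pool.Agent.D0H67.CX.Stm2

/-! Project CX (helper67), module GENV. -/

set_option autoImplicit false
set_option linter.unusedVariables false

namespace Pool.Agent.D0H22.CX

open MvPolynomial Pool.Agent.W428.MOT Pool.Agent.TH192.MT Pool.Agent.TH192.DT
  Pool.Agent.D0H67.SUB Pool.Agent.D0H67.PM Pool.Agent.D0H67.SUB.Trn Pool.Agent.D0H67.CX
  Pool.Agent.D0H35.CX

theorem t_GENV : S_REL → S_GENV := by
  intro hREL σ J _ _ g ι d hd hg hind
  classical
  have hrel := hREL (fun i => g (ι i)) d hd (fun i => hg (ι i)) hind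
  choose K m A hAh hAm hAK hsum using hrel
  obtain ⟨i₀⟩ := ‹Nonempty σ›
  have hinj : Function.Injective (bind₁ fun i => g (ι i)) := hind
  have hg0 : g (ι i₀) ≠ 0 := by
    intro h
    have h1 : bind₁ (fun i => g (ι i)) (X i₀ : MvPolynomial σ ℂ) = bind₁ (fun i => g (ι i)) 0 := by
      rw [bind₁_X_right, map_zero, h]
    exact X_ne_zero i₀ (hinj h1)
  have hA0 : ∀ i, bind₁ (fun i => g (ι i)) (A i (K i)) ≠ 0 := by
    intro i h
    exact hAK i (hinj (by rw [h, map_zero]))
  refine ⟨(∏ i, bind₁ (fun i => g (ι i)) (A i (K i))) * g (ι i₀),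
    mul_ne_zero (Finset.prod_ne_zero_iff.2 fun i _ => hA0 i) hg0, ?_⟩
  intro v hv
  rw [map_mul, map_prod] at hv
  have hv0 : aeval v (g (ι i₀)) ≠ 0 := right_ne_zero_of_mul hv
  have hvA : ∀ i, aeval (fun l => aeval v (g (ι l))) (A i (K i)) ≠ 0 := by
    intro i
    have h1 := Finset.prod_ne_zero_iff.1 (left_ne_zero_of_mul hv) i (Finset.mem_univ i)
    rwa [aeval_bind₁] at h1
  -- the relation at a point with values in an algebra
  have hrelS : ∀ {S : Type} [CommRing S] [Algebra ℂ S] (w : σ → S) (i : σ),
      ∑ k ∈ Finset.range (K i + 1), aeval (fun l => aeval w (g (ι l))) (A i k) * w i ^ k = 0 := by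
    intro S _ _ w i
    have h1 := congrArg (aeval w) (hsum i)
    rw [map_sum, map_zero] at h1
    rw [← h1]
    refine Finset.sum_congr rfl fun k _ => ?_
    rw [map_mul, map_pow, aeval_X, aeval_bind₁]
  refine ⟨⟨_, hv0⟩, ?_, ?_⟩
  · -- the fibre is finite
    let P : σ → Polynomial (AlgebraicClosure ℂ) := fun i =>
      ∑ k ∈ Finset.range (K i + 1), Polynomial.C (aeval (fun l => aeval v (g (ι l))) (A i k)) *
        Polynomial.X ^ k
    have hP : ∀ i, P i ≠ 0 := by
      intro i h
      have h1 : (P i).coeff (K i) = aeval (fun l => aeval v (g (ι l))) (A i (K i)) := by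
        simp only [P, Polynomial.finsetSum_coeff, Polynomial.coeff_C_mul_X_pow]
        rw [Finset.sum_ite_eq (Finset.range (K i + 1)) (K i)]
        simp
      rw [h, Polynomial.coeff_zero] at h1
      exact hvA i h1.symm
    have hfin : (Set.univ.pi fun i => ((P i).roots.toFinset : Set (AlgebraicClosure ℂ))).Finite :=
      Set.Finite.pi fun i => Finset.finite_toSet _
    apply hfin.subset
    intro u hu i _
    rw [Finset.mem_coe, Multiset.mem_toFinset, Polynomial.mem_roots (hP i), Polynomial.IsRoot.def]
    have h1 := hrelS u i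
    have h2 : (fun l => aeval u (g (ι l))) = fun l => aeval v (g (ι l)) := funext fun l => hu (ι l)
    rw [h2] at h1
    simp only [P, Polynomial.eval_finsetSum, Polynomial.eval_mul, Polynomial.eval_C,
      Polynomial.eval_pow, Polynomial.eval_X]
    exact h1
  · intro N
    ext z
    rw [mem_JetE, Set.mem_ofPred_eq]
    refine and_congr Iff.rfl ?_
    constructor
    · rintro ⟨hj, c, hc, he⟩
      have hne : ∃ k, jk z k ≠ 0 := by
        by_contra hcon
        push Not at hcon
        have h0 : ar z = fun i => 0 * ar z i := by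
          funext i
          rw [zero_mul]
          ext k
          rw [Pool.Agent.D0H35.CX.coeff_ar, map_zero]
          exact congrFun (hcon k) i
        have h1 := he (ι i₀)
        rw [h0, hom_aeval (hg (ι i₀)), zero_pow hd.ne', zero_mul, map_zero] at h1
        exact (mul_ne_zero hc hv0) h1.symm
      obtain ⟨a, ha, hlt⟩ : ∃ a, jk z a ≠ 0 ∧ ∀ k < a, jk z k = 0 :=
        ⟨Nat.find hne, Nat.find_spec hne, fun k hk => not_not.1 (Nat.find_min hne hk)⟩
      obtain ⟨w, hw, hw0⟩ := ar_factor z a hlt
      have hw' : ar z = fun i => PowerSeries.X ^ a * w i := funext hw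
      have hgj : ∀ j, aeval (ar z) (g j) = PowerSeries.X ^ (d * a) * aeval w (g j) := by
        intro j
        rw [hw', hom_aeval (hg j), ← pow_mul, mul_comm a d]
      have hda : d * a ≤ N := by
        by_contra hcon
        push Not at hcon
        have h1 := he (ι i₀)
        rw [hgj, PowerSeries.coeff_X_pow_mul', if_neg (by omega)] at h1
        exact (mul_ne_zero hc hv0) h1.symm
      obtain ⟨δ, hδN⟩ := Nat.exists_eq_add_of_le hda
      have hX : (PowerSeries.X : PowerSeries (AlgebraicClosure ℂ)) ≠ 0 := PowerSeries.X_ne_zero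
      have hG : ∀ j, ∃ G, aeval w (g j) = PowerSeries.X ^ δ * G := by
        intro j
        have h1 := hj j
        rw [hgj, hδN, pow_add] at h1
        exact (mul_dvd_mul_iff_left (pow_ne_zero _ hX)).1 h1
      choose G hGj using hG
      have hG0 : ∀ j, PowerSeries.coeff 0 (G j) = c * aeval v (g j) := by
        intro j
        have h1 := he j
        have h3 := PowerSeries.coeff_X_pow_mul (G j) (d * a + δ) 0
        rw [zero_add] at h3
        rw [hgj, hGj, ← mul_assoc, ← pow_add, hδN, h3] at h1
        exact h1
      have hδ : δ = 0 := by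
        by_contra hδ
        obtain ⟨i, hi⟩ : ∃ i, jk z a i ≠ 0 := by
          by_contra hcon
          push Not at hcon
          exact ha (funext hcon)
        have h1 := hrelS w i
        have h2 : (fun l => aeval w (g (ι l))) = fun l => PowerSeries.X ^ δ * G (ι l) :=
          funext fun l => hGj (ι l)
        rw [h2] at h1
        have h3 : ∀ k ∈ Finset.range (K i + 1), aeval (fun l => PowerSeries.X ^ δ * G (ι l)) (A i k) *
            w i ^ k = PowerSeries.X ^ (δ * m i k) * (aeval (fun l => G (ι l)) (A i k) * w i ^ k) := by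
          intro k hk
          have hk' : k ≤ K i := Nat.lt_succ_iff.1 (Finset.mem_range.1 hk)
          rw [hom_aeval (hAh i k hk'), ← pow_mul, mul_assoc]
        rw [Finset.sum_congr rfl h3, Finset.sum_range_succ] at h1
        have h4 : PowerSeries.X ^ (δ * m i (K i) + 1) ∣ ∑ k ∈ Finset.range (K i),
            PowerSeries.X ^ (δ * m i k) * (aeval (fun l => G (ι l)) (A i k) * w i ^ k) := by
          apply Finset.dvd_sum
          intro k hk
          have hk' : k < K i := Finset.mem_range.1 hk
          by_cases hAk : A i k = 0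
          · rw [hAk, map_zero, zero_mul, mul_zero]; exact dvd_zero _
          · have h5 := hAm i k hk'.le hAk
            have h6 : m i (K i) + 1 ≤ m i k := by
              by_contra hcon
              push Not at hcon
              have : m i k ≤ m i (K i) := by omega
              have := Nat.mul_le_mul_left d this
              omega
            have h7 : δ * m i (K i) + 1 ≤ δ * m i k := by
              calc δ * m i (K i) + 1 ≤ δ * m i (K i) + δ := by omega
                _ = δ * (m i (K i) + 1) := by ring
                _ ≤ δ * m i k := Nat.mul_le_mul_left δ h6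
            exact (pow_dvd_pow _ h7).mul_right _
        have h5 : PowerSeries.X ^ (δ * m i (K i) + 1) ∣ PowerSeries.X ^ (δ * m i (K i)) *
            (aeval (fun l => G (ι l)) (A i (K i)) * w i ^ K i) := by
          have h6 : PowerSeries.X ^ (δ * m i (K i)) *
              (aeval (fun l => G (ι l)) (A i (K i)) * w i ^ K i) =
              -∑ k ∈ Finset.range (K i),
              PowerSeries.X ^ (δ * m i k) * (aeval (fun l => G (ι l)) (A i k) * w i ^ k) :=
            eq_neg_of_add_eq_zero_right h1
          rw [h6]
          exact (dvd_neg).2 h4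
        rw [pow_succ, mul_dvd_mul_iff_left (pow_ne_zero _ hX)] at h5
        have h6 : PowerSeries.coeff 0 (aeval (fun l => G (ι l)) (A i (K i)) * w i ^ K i) = 0 := by
          obtain ⟨r, hr⟩ := h5
          rw [hr]; simp
        rw [coeff_zero_mul', Pool.Agent.D0H35.CX.coeff_zero_aeval] at h6
        have h7 : (fun l => PowerSeries.coeff 0 (G (ι l))) = fun l => c * aeval v (g (ι l)) :=
          funext fun l => hG0 (ι l)
        rw [h7, hom_aeval (hAh i (K i) le_rfl)] at h6
        have h8 : PowerSeries.coeff 0 (w i ^ K i) = jk z a i ^ K i := by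
          rw [← congrFun hw0 i]
          simp
        rw [h8] at h6
        exact (mul_ne_zero (mul_ne_zero (pow_ne_zero _ hc) (hvA i)) (pow_ne_zero _ hi)) h6
      refine ⟨a, hlt, ⟨c, hc, fun j => ?_⟩, by rw [hδN, hδ, add_zero]⟩
      rw [← hG0 j, ← hw0, ← Pool.Agent.D0H35.CX.coeff_zero_aeval, hGj j, hδ, pow_zero, one_mul]
    · rintro ⟨a, hlt, ⟨c, hc, hcv⟩, hN⟩
      obtain ⟨w, hw, hw0⟩ := ar_factor z a hlt
      have hw' : ar z = fun i => PowerSeries.X ^ a * w i := funext hw
      have hgj : ∀ j, aeval (ar z) (g j) = PowerSeries.X ^ N * aeval w (g j) := by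
        intro j
        rw [hw', hom_aeval (hg j), ← pow_mul, mul_comm a d, hN]
      refine ⟨fun j => ⟨_, hgj j⟩, c, hc, fun j => ?_⟩
      have h3 := PowerSeries.coeff_X_pow_mul (aeval w (g j)) N 0
      rw [zero_add] at h3
      rw [hgj j, h3, Pool.Agent.D0H35.CX.coeff_zero_aeval, hw0, hcv j]

end Pool.Agent.D0H22.CX
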