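import Pool.Agent.D0H35.CX.Apex
import Pool.Agent.D0H67.CX.Stm3

/-! Project CX (helper67), module GENV2. -/

set_option autoImplicit false
set_option linter.unusedVariables false

namespace Pool.Agent.D0H22.CX

open MvPolynomial Pool.Agent.W428.MOT Pool.Agent.TH192.MT Pool.Agent.TH192.DT
  Pool.Agent.D0H67.SUB Pool.Agent.D0H67.PM Pool.Agent.D0H67.SUB.Trn Pool.Agent.D0H67.CX
  Pool.Agent.D0H35.CX

/-- weighted homogeneity, in values -/
theorem whom_aeval {σ : Type} {S : Type} [CommRing S] [Algebra ℂ S] {w : σ → ℕ}
    {f : MvPolynomial σ ℂ} {m : ℕ} (hf : IsWeightedHomogeneous w f m) (c : S) (u : σ → S) :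
    aeval (fun i => c ^ w i * u i) f = c ^ m * aeval u f := by
  classical
  rw [aeval_def, aeval_def, eval₂_eq, eval₂_eq, Finset.mul_sum]
  refine Finset.sum_congr rfl fun s hs => ?_
  have h1 := hf (mem_support_iff.1 hs)
  rw [Finsupp.weight_apply, Finsupp.sum] at h1
  have h2 : ∏ i ∈ s.support, (c ^ w i * u i) ^ s i = c ^ m * ∏ i ∈ s.support, u i ^ s i := by
    rw [← h1, ← Finset.prod_pow_eq_pow_sum, ← Finset.prod_mul_distrib]
    refine Finset.prod_congr rfl fun i _ => ?_
    rw [mul_pow, ← pow_mul, smul_eq_mul, mul_comm (w i)]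
  rw [h2]
  ring

/-- division by a power of `t` of the coordinates of weight one -/
theorem ar_factor2 {σ : Type} {N : ℕ} (w : σ → ℕ) (hw : ∀ i, w i ≤ 1)
    (z : Pt ℂ (σ × Fin (N + 1))) (a : ℕ) (h : ∀ k < a, ∀ i, w i = 1 → jk z k i = 0) :
    ∃ u : σ → PowerSeries (AlgebraicClosure ℂ),
      (∀ i, ar z i = (PowerSeries.X ^ a) ^ w i * u i) ∧
      (∀ i, PowerSeries.coeff 0 (u i) = if w i = 1 then jk z a i else jk z 0 i) := by
  classical
  have h1 : ∀ i, w i = 1 → ∃ ui, ar z i = PowerSeries.X ^ a * ui := by
    intro i hi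
    have : PowerSeries.X ^ a ∣ ar z i := by
      rw [PowerSeries.X_pow_dvd_iff]
      intro m hm
      rw [Pool.Agent.D0H35.CX.coeff_ar]
      exact h m hm i hi
    exact this
  choose! u hu using h1
  refine ⟨fun i => if w i = 1 then u i else ar z i, ?_, ?_⟩
  · intro i
    by_cases hi : w i = 1
    · simp only [hi, if_true, pow_one]
      exact hu i hi
    · have h0 : w i = 0 := by have := hw i; omega
      simp only [if_neg hi]
      rw [h0, pow_zero, one_mul]
  · intro i
    by_cases hi : w i = 1
    · simp only [hi, if_true]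
      have h2 : jk z a i = PowerSeries.coeff a (ar z i) :=
        (Pool.Agent.D0H35.CX.coeff_ar z a i).symm
      have h3 := PowerSeries.coeff_X_pow_mul (u i) a 0
      rw [zero_add] at h3
      rw [h2, hu i hi, h3]
    · simp only [if_neg hi]
      exact Pool.Agent.D0H35.CX.coeff_ar z 0 i

theorem t_GENV2 : S_REL2 → S_GENV2 := by
  intro hREL σ J _ g ι w d hw hw1 hd hg hind
  classical
  have hrel := hREL g ι w d hw hd hg hind
  choose! K m A hAh hAm hAK hsum using hrel
  obtain ⟨i₀, hi₀⟩ := hw1
  have hinj : Function.Injective (bind₁ (gX g ι w)) := hind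
  have hgX1 : ∀ i, w i = 1 → gX g ι w i = g (ι i) := fun i hi => if_pos hi
  have hgX0 : ∀ i, w i ≠ 1 → gX g ι w i = X i := fun i hi => if_neg hi
  have hg0 : g (ι i₀) ≠ 0 := by
    intro h
    have h1 : bind₁ (gX g ι w) (X i₀ : MvPolynomial σ ℂ) = bind₁ (gX g ι w) 0 := by
      rw [bind₁_X_right, map_zero, hgX1 i₀ hi₀, h]
    exact X_ne_zero i₀ (hinj h1)
  have hA0 : ∀ i, w i = 1 → bind₁ (gX g ι w) (A i (K i)) ≠ 0 := by
    intro i hi h
    exact hAK i hi (hinj (by rw [h, map_zero]))
  refine ⟨(∏ i ∈ Finset.univ.filter (fun i => w i = 1), bind₁ (gX g ι w) (A i (K i))) * g (ι i₀),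
    mul_ne_zero (Finset.prod_ne_zero_iff.2 fun i hi => hA0 i (Finset.mem_filter.1 hi).2) hg0, ?_⟩
  intro v hv
  rw [map_mul, map_prod] at hv
  have hv0 : aeval v (g (ι i₀)) ≠ 0 := right_ne_zero_of_mul hv
  have hvA : ∀ i, w i = 1 → aeval (fun l => aeval v (gX g ι w l)) (A i (K i)) ≠ 0 := by
    intro i hi
    have h1 := Finset.prod_ne_zero_iff.1 (left_ne_zero_of_mul hv) i
      (Finset.mem_filter.2 ⟨Finset.mem_univ i, hi⟩)
    rwa [aeval_bind₁] at h1
  -- the relation at a point with values in an algebra
  have hrelS : ∀ {S : Type} [CommRing S] [Algebra ℂ S] (u : σ → S) (i : σ), w i = 1 →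
      ∑ k ∈ Finset.range (K i + 1), aeval (fun l => aeval u (gX g ι w l)) (A i k) * u i ^ k
        = 0 := by
    intro S _ _ u i hi
    have h1 := congrArg (aeval u) (hsum i hi)
    rw [map_sum, map_zero] at h1
    rw [← h1]
    refine Finset.sum_congr rfl fun k _ => ?_
    rw [map_mul, map_pow, aeval_X, aeval_bind₁]
  refine ⟨⟨_, hv0⟩, ?_, ?_⟩
  · -- the fibre is finite
    let P : σ → Polynomial (AlgebraicClosure ℂ) := fun i =>
      if w i = 1 then
      ∑ k ∈ Finset.range (K i + 1),
        Polynomial.C (aeval (fun l => aeval v (gX g ι w l)) (A i k)) * Polynomial.X ^ k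
      else Polynomial.X - Polynomial.C (v i)
    have hP : ∀ i, P i ≠ 0 := by
      intro i h
      by_cases hi : w i = 1
      · have h1 : (P i).coeff (K i) = aeval (fun l => aeval v (gX g ι w l)) (A i (K i)) := by
          simp only [P, if_pos hi, Polynomial.finsetSum_coeff, Polynomial.coeff_C_mul_X_pow]
          rw [Finset.sum_ite_eq (Finset.range (K i + 1)) (K i)]
          simp
        rw [h, Polynomial.coeff_zero] at h1
        exact hvA i hi h1.symm
      · simp only [P, if_neg hi] at h
        exact Polynomial.X_sub_C_ne_zero _ h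
    have hfin : (Set.univ.pi fun i => ((P i).roots.toFinset : Set (AlgebraicClosure ℂ))).Finite :=
      Set.Finite.pi fun i => Finset.finite_toSet _
    apply hfin.subset
    rintro u ⟨hu0, hu⟩ i _
    rw [Finset.mem_coe, Multiset.mem_toFinset, Polynomial.mem_roots (hP i), Polynomial.IsRoot.def]
    by_cases hi : w i = 1
    · have h1 := hrelS u i hi
      have h2 : (fun l => aeval u (gX g ι w l)) = fun l => aeval v (gX g ι w l) := by
        funext l
        by_cases hl : w l = 1
        · rw [hgX1 l hl]; exact hu (ι l)
        · rw [hgX0 l hl, aeval_X, aeval_X]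
          exact hu0 l (by have := hw l; omega)
      rw [h2] at h1
      simp only [P, if_pos hi, Polynomial.eval_finsetSum, Polynomial.eval_mul, Polynomial.eval_C,
        Polynomial.eval_pow, Polynomial.eval_X]
      exact h1
    · simp only [P, if_neg hi, Polynomial.eval_sub, Polynomial.eval_X, Polynomial.eval_C]
      rw [hu0 i (by have := hw i; omega), sub_self]
  · intro N
    ext z
    rw [mem_JetE, Set.mem_ofPred_eq]
    refine and_congr_right ?_
    intro hz0
    have hval : ∀ (a : ℕ) (u : σ → PowerSeries (AlgebraicClosure ℂ)),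
        (∀ i, PowerSeries.coeff 0 (u i) = if w i = 1 then jk z a i else jk z 0 i) →
        (fun i => PowerSeries.coeff 0 (u i)) = fun i => if w i = 1 then jk z a i else v i := by
      intro a u hu
      funext i
      rw [hu i]
      split_ifs with hi
      · rfl
      · rw [hz0]; simp only [if_neg hi]
    constructor
    · rintro ⟨hj, c, hc, he⟩
      have hne : ∃ k, ∃ i, w i = 1 ∧ jk z k i ≠ 0 := by
        by_contra hcon
        push Not at hcon
        have h0 : ar z = fun i => (0 : PowerSeries (AlgebraicClosure ℂ)) ^ w i * ar z i := by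
          funext i
          by_cases hi : w i = 1
          · rw [hi, pow_one, zero_mul]
            ext k
            rw [Pool.Agent.D0H35.CX.coeff_ar, map_zero]
            exact hcon k i hi
          · have h00 : w i = 0 := by have := hw i; omega
            rw [h00, pow_zero, one_mul]
        have h1 := he (ι i₀)
        rw [h0, whom_aeval (hg (ι i₀)), zero_pow hd.ne', zero_mul, map_zero] at h1
        exact (mul_ne_zero hc hv0) h1.symm
      obtain ⟨a, ⟨i, hi, hia⟩, hlt⟩ : ∃ a, (∃ i, w i = 1 ∧ jk z a i ≠ 0) ∧
          ∀ k < a, ∀ i, w i = 1 → jk z k i = 0 := by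
        refine ⟨Nat.find hne, Nat.find_spec hne, fun k hk => ?_⟩
        have := Nat.find_min hne hk
        push Not at this
        exact this
      obtain ⟨u, hu, hu0⟩ := ar_factor2 w hw z a hlt
      have hu' : ar z = fun i => (PowerSeries.X ^ a) ^ w i * u i := funext hu
      have hgj : ∀ j, aeval (ar z) (g j) = PowerSeries.X ^ (d * a) * aeval u (g j) := by
        intro j
        rw [hu', whom_aeval (hg j), ← pow_mul, mul_comm a d]
      have hda : d * a ≤ N := by
        by_contra hcon
        push Not at hcon
        have h1 := he (ι i₀)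
        rw [hgj, PowerSeries.coeff_X_pow_mul', if_neg (by omega)] at h1
        exact (mul_ne_zero hc hv0) h1.symm
      obtain ⟨δ, hδN⟩ := Nat.exists_eq_add_of_le hda
      have hX : (PowerSeries.X : PowerSeries (AlgebraicClosure ℂ)) ≠ 0 := PowerSeries.X_ne_zero
      have hG : ∀ j, ∃ G, aeval u (g j) = PowerSeries.X ^ δ * G := by
        intro j
        have h1 := hj j
        rw [hgj, hδN, pow_add] at h1
        exact (mul_dvd_mul_iff_left (pow_ne_zero _ hX)).1 h1
      choose G hGj using hG
      have hG0 : ∀ j, PowerSeries.coeff 0 (G j) = c * aeval v (g j) := by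
        intro j
        have h1 := he j
        have h3 := PowerSeries.coeff_X_pow_mul (G j) (d * a + δ) 0
        rw [zero_add] at h3
        rw [hgj, hGj, ← mul_assoc, ← pow_add, hδN, h3] at h1
        exact h1
      have hδ : δ = 0 := by
        by_contra hδ
        have h1 := hrelS u i hi
        let G' : σ → PowerSeries (AlgebraicClosure ℂ) := fun l => if w l = 1 then G (ι l) else u l
        have h2 : (fun l => aeval u (gX g ι w l)) =
            fun l => (PowerSeries.X ^ δ) ^ w l * G' l := by
          funext l
          by_cases hl : w l = 1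
          · rw [hgX1 l hl, hGj, hl, pow_one]
            simp only [G', if_pos hl]
          · have h00 : w l = 0 := by have := hw l; omega
            rw [hgX0 l hl, aeval_X, h00, pow_zero, one_mul]
            simp only [G', if_neg hl]
        rw [h2] at h1
        have h3 : ∀ k ∈ Finset.range (K i + 1),
            aeval (fun l => (PowerSeries.X ^ δ) ^ w l * G' l) (A i k) * u i ^ k =
            PowerSeries.X ^ (δ * m i k) * (aeval G' (A i k) * u i ^ k) := by
          intro k hk
          have hk' : k ≤ K i := Nat.lt_succ_iff.1 (Finset.mem_range.1 hk)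
          rw [whom_aeval (hAh i hi k hk'), ← pow_mul, mul_assoc]
        rw [Finset.sum_congr rfl h3, Finset.sum_range_succ] at h1
        have h4 : PowerSeries.X ^ (δ * m i (K i) + 1) ∣ ∑ k ∈ Finset.range (K i),
            PowerSeries.X ^ (δ * m i k) * (aeval G' (A i k) * u i ^ k) := by
          apply Finset.dvd_sum
          intro k hk
          have hk' : k < K i := Finset.mem_range.1 hk
          by_cases hAk : A i k = 0
          · rw [hAk, map_zero, zero_mul, mul_zero]; exact dvd_zero _
          · have h5 := hAm i hi k hk'.le hAk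
            have h6 : m i (K i) + 1 ≤ m i k := by
              by_contra hcon
              push Not at hcon
              have : m i k ≤ m i (K i) := by omega
              have := Nat.mul_le_mul_left d this
              omega
            have h7 : δ * m i (K i) + 1 ≤ δ * m i k := by
              calc δ * m i (K i) + 1 ≤ δ * m i (K i) + δ := by omega
                _ = δ * (m i (K i) + 1) := by ring
                _ ≤ δ * m i k := Nat.mul_le_mul_left δ h6
            exact (pow_dvd_pow _ h7).mul_right _
        have h5 : PowerSeries.X ^ (δ * m i (K i) + 1) ∣ PowerSeries.X ^ (δ * m i (K i)) *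
            (aeval G' (A i (K i)) * u i ^ K i) := by
          have h6 : PowerSeries.X ^ (δ * m i (K i)) * (aeval G' (A i (K i)) * u i ^ K i) =
              -∑ k ∈ Finset.range (K i),
              PowerSeries.X ^ (δ * m i k) * (aeval G' (A i k) * u i ^ k) :=
            eq_neg_of_add_eq_zero_right h1
          rw [h6]
          exact (dvd_neg).2 h4
        rw [pow_succ, mul_dvd_mul_iff_left (pow_ne_zero _ hX)] at h5
        have h6 : PowerSeries.coeff 0 (aeval G' (A i (K i)) * u i ^ K i) = 0 := by
          obtain ⟨r, hr⟩ := h5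
          rw [hr]; simp
        rw [coeff_zero_mul', Pool.Agent.D0H35.CX.coeff_zero_aeval] at h6
        have h7 : (fun l => PowerSeries.coeff 0 (G' l)) =
            fun l => c ^ w l * aeval v (gX g ι w l) := by
          funext l
          by_cases hl : w l = 1
          · rw [hgX1 l hl, hl, pow_one]
            simp only [G', if_pos hl]
            exact hG0 (ι l)
          · have h00 : w l = 0 := by have := hw l; omega
            rw [hgX0 l hl, aeval_X, h00, pow_zero, one_mul]
            have h8 := congrFun (hval a u hu0) l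
            simp only [if_neg hl] at h8
            simp only [G', if_neg hl]
            exact h8
        rw [h7, whom_aeval (hAh i hi (K i) le_rfl)] at h6
        have h8 : PowerSeries.coeff 0 (u i ^ K i) = jk z a i ^ K i := by
          have h9 := hu0 i
          rw [if_pos hi] at h9
          rw [← h9]
          simp
        rw [h8] at h6
        exact (mul_ne_zero (mul_ne_zero (pow_ne_zero _ hc) (hvA i hi)) (pow_ne_zero _ hia)) h6
      refine ⟨a, hlt, ⟨c, hc, fun j => ?_⟩, by rw [hδN, hδ, add_zero]⟩
      rw [← hG0 j, ← hval a u hu0, ← Pool.Agent.D0H35.CX.coeff_zero_aeval, hGj j, hδ, pow_zero,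
        one_mul]
    · rintro ⟨a, hlt, ⟨c, hc, hcv⟩, hN⟩
      obtain ⟨u, hu, hu0⟩ := ar_factor2 w hw z a hlt
      have hu' : ar z = fun i => (PowerSeries.X ^ a) ^ w i * u i := funext hu
      have hgj : ∀ j, aeval (ar z) (g j) = PowerSeries.X ^ N * aeval u (g j) := by
        intro j
        rw [hu', whom_aeval (hg j), ← pow_mul, mul_comm a d, hN]
      refine ⟨fun j => ⟨_, hgj j⟩, c, hc, fun j => ?_⟩
      have h3 := PowerSeries.coeff_X_pow_mul (aeval u (g j)) N 0
      rw [zero_add] at h3
      rw [hgj j, h3, Pool.Agent.D0H35.CX.coeff_zero_aeval, hval a u hu0, hcv j]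

end Pool.Agent.D0H22.CX
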