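import Pool.Agent.D0H22.CX.Genv2
import Pool.Agent.D0H67.CX.Stm4

/-! Project CX (helper67), module GENV3. -/

set_option autoImplicit false
set_option linter.unusedVariables false

namespace Pool.Agent.D0H22.CX

open MvPolynomial Pool.Agent.W428.MOT Pool.Agent.TH192.MT Pool.Agent.TH192.DT
  Pool.Agent.D0H67.SUB Pool.Agent.D0H67.PM Pool.Agent.D0H67.SUB.Trn Pool.Agent.D0H67.CX
  Pool.Agent.D0H35.CX

/-- the order of a root of a polynomial whose Newton polygon is a segment -/
theorem newton {F : Type} [Field F] (K : ℕ) (m : ℕ → ℕ) (B : ℕ → PowerSeries F)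
    (z : PowerSeries F) (N d w : ℕ) (hd : 0 < d)
    (hsum : ∑ k ∈ Finset.range (K + 1), PowerSeries.X ^ (N * m k) * (B k * z ^ k) = 0)
    (hrel : ∀ k ≤ K, B k ≠ 0 → d * m k + k * w = d * m K + K * w)
    (hK : PowerSeries.coeff 0 (B K) ≠ 0) (h0 : PowerSeries.coeff 0 (B 0) ≠ 0) :
    ∃ (o : ℕ) (u : PowerSeries F), z = PowerSeries.X ^ o * u ∧ PowerSeries.coeff 0 u ≠ 0 ∧
      d * o = N * w := by
  classical
  have hX : (PowerSeries.X : PowerSeries F) ≠ 0 := PowerSeries.X_ne_zero
  have hBK : B K ≠ 0 := fun h => hK (by rw [h]; simp)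
  have hB0 : B 0 ≠ 0 := fun h => h0 (by rw [h]; simp)
  have hrel0 : d * m 0 = d * m K + K * w := by
    have := hrel 0 (Nat.zero_le _) hB0
    simpa using this
  have hz : z ≠ 0 := by
    intro hz
    rw [Finset.sum_eq_single 0] at hsum
    · rw [pow_zero, mul_one] at hsum
      exact hB0 ((mul_eq_zero.1 hsum).resolve_left (pow_ne_zero _ hX))
    · intro k _ hk
      rw [hz, zero_pow hk, mul_zero, mul_zero]
    · intro h
      exact absurd (Finset.mem_range.2 (Nat.succ_pos _)) h
  have hex : ∃ k, PowerSeries.coeff k z ≠ 0 := by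
    by_contra hcon
    push Not at hcon
    exact hz (PowerSeries.ext (fun n => by rw [hcon n, map_zero]))
  obtain ⟨o, ho, ho'⟩ : ∃ o, PowerSeries.coeff o z ≠ 0 ∧ ∀ k < o, PowerSeries.coeff k z = 0 :=
    ⟨Nat.find hex, Nat.find_spec hex, fun k hk => not_not.1 (Nat.find_min hex hk)⟩
  obtain ⟨u, hu⟩ : PowerSeries.X ^ o ∣ z := PowerSeries.X_pow_dvd_iff.2 ho'
  have hu0 : PowerSeries.coeff 0 u ≠ 0 := by
    have h3 := PowerSeries.coeff_X_pow_mul u o 0
    rw [zero_add] at h3
    rw [hu, h3] at ho
    exact ho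
  have hterm : ∀ k, PowerSeries.X ^ (N * m k) * (B k * z ^ k) =
      PowerSeries.X ^ (N * m k + k * o) * (B k * u ^ k) := by
    intro k
    rw [hu, mul_pow, ← pow_mul, pow_add, mul_comm o k]
    ring
  simp_rw [hterm] at hsum
  refine ⟨o, u, hu, hu0, ?_⟩
  have hcoefpow : ∀ k, PowerSeries.coeff 0 (u ^ k) ≠ 0 := by
    intro k
    have : PowerSeries.coeff 0 (u ^ k) = (PowerSeries.coeff 0 u) ^ k := by simp
    rw [this]
    exact pow_ne_zero _ hu0
  rcases lt_trichotomy (d * o) (N * w) with hlt | heq | hgt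
  · -- the top term has the smallest order
    exfalso
    rw [Finset.sum_range_succ] at hsum
    have h4 : PowerSeries.X ^ (N * m K + K * o + 1) ∣ ∑ k ∈ Finset.range K,
        PowerSeries.X ^ (N * m k + k * o) * (B k * u ^ k) := by
      apply Finset.dvd_sum
      intro k hk
      have hk' : k < K := Finset.mem_range.1 hk
      by_cases hBk : B k = 0
      · rw [hBk, zero_mul, mul_zero]; exact dvd_zero _
      · have h5 := hrel k hk'.le hBk
        have h7 : N * m K + K * o + 1 ≤ N * m k + k * o := by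
          by_contra hcon
          push Not at hcon
          have h8 : N * m k + k * o ≤ N * m K + K * o := by omega
          have h9 := Nat.mul_le_mul_left d h8
          obtain ⟨e, he⟩ := Nat.exists_eq_add_of_lt hk'
          have h10 : (e + 1) * (d * o) < (e + 1) * (N * w) :=
            Nat.mul_lt_mul_of_pos_left hlt (Nat.succ_pos e)
          have h11 : N * (d * m k + k * w) = N * (d * m K + K * w) := by rw [h5]
          rw [he] at h9 h11
          nlinarith
        exact (pow_dvd_pow _ h7).mul_right _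
    have h5 : PowerSeries.X ^ (N * m K + K * o + 1) ∣
        PowerSeries.X ^ (N * m K + K * o) * (B K * u ^ K) := by
      rw [eq_neg_of_add_eq_zero_right hsum]
      exact (dvd_neg).2 h4
    rw [pow_succ, mul_dvd_mul_iff_left (pow_ne_zero _ hX)] at h5
    have h6 : PowerSeries.coeff 0 (B K * u ^ K) = 0 := by
      obtain ⟨r, hr⟩ := h5
      rw [hr]; simp
    rw [coeff_zero_mul'] at h6
    exact (mul_ne_zero hK (hcoefpow K)) h6
  · exact heq
  · -- the lowest term has the smallest order
    exfalso
    rw [Finset.sum_range_succ'] at hsum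
    have h4 : PowerSeries.X ^ (N * m 0 + 1) ∣ ∑ k ∈ Finset.range K,
        PowerSeries.X ^ (N * m (k + 1) + (k + 1) * o) * (B (k + 1) * u ^ (k + 1)) := by
      apply Finset.dvd_sum
      intro k hk
      have hk' : k < K := Finset.mem_range.1 hk
      by_cases hBk : B (k + 1) = 0
      · rw [hBk, zero_mul, mul_zero]; exact dvd_zero _
      · have h5 := hrel (k + 1) hk' hBk
        have h7 : N * m 0 + 1 ≤ N * m (k + 1) + (k + 1) * o := by
          by_contra hcon
          push Not at hcon
          have h8 : N * m (k + 1) + (k + 1) * o ≤ N * m 0 := by omega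
          have h9 := Nat.mul_le_mul_left d h8
          have h10 : (k + 1) * (N * w) < (k + 1) * (d * o) :=
            Nat.mul_lt_mul_of_pos_left hgt (Nat.succ_pos k)
          have h11 : N * (d * m (k + 1) + (k + 1) * w) = N * (d * m 0) := by rw [h5, hrel0]
          nlinarith
        exact (pow_dvd_pow _ h7).mul_right _
    have h5 : PowerSeries.X ^ (N * m 0 + 1) ∣
        PowerSeries.X ^ (N * m 0 + 0 * o) * (B 0 * u ^ 0) := by
      rw [eq_neg_of_add_eq_zero_right hsum]
      exact (dvd_neg).2 h4
    rw [zero_mul, add_zero, pow_zero, mul_one, pow_succ,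
      mul_dvd_mul_iff_left (pow_ne_zero _ hX)] at h5
    obtain ⟨r, hr⟩ := h5
    exact h0 (by rw [hr]; simp)

/-- division by powers of `t` -/
theorem ar_factor3 {σ : Type} {N : ℕ} (w : σ → ℕ)
    (z : Pt ℂ (σ × Fin (N + 1))) (a : ℕ) (h : ∀ i, w i ≠ 0 → ∀ k < a * w i, jk z k i = 0) :
    ∃ u : σ → PowerSeries (AlgebraicClosure ℂ),
      (∀ i, ar z i = (PowerSeries.X ^ a) ^ w i * u i) ∧
      (∀ i, PowerSeries.coeff 0 (u i) = if w i = 0 then jk z 0 i else jk z (a * w i) i) := by
  classical
  have h1 : ∀ i, ∃ ui, ar z i = (PowerSeries.X ^ a) ^ w i * ui := by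
    intro i
    have : (PowerSeries.X ^ a) ^ w i ∣ ar z i := by
      by_cases hi : w i = 0
      · rw [hi, pow_zero]; exact one_dvd _
      · rw [← pow_mul, PowerSeries.X_pow_dvd_iff]
        intro m hm
        rw [Pool.Agent.D0H35.CX.coeff_ar]
        exact h i hi m hm
    exact this
  choose u hu using h1
  refine ⟨u, hu, ?_⟩
  intro i
  split_ifs with hi
  · have h2 := hu i
    rw [hi, pow_zero, one_mul] at h2
    rw [← h2]
    exact Pool.Agent.D0H35.CX.coeff_ar z 0 i
  · have h2 : jk z (a * w i) i = PowerSeries.coeff (a * w i) (ar z i) :=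
      (Pool.Agent.D0H35.CX.coeff_ar z (a * w i) i).symm
    have h3 := PowerSeries.coeff_X_pow_mul (u i) (a * w i) 0
    rw [zero_add] at h3
    rw [h2, hu i, ← pow_mul, h3]

theorem dvd_of_gcd {σ : Type} (w : σ → ℕ) (hw : ∀ k : ℕ, (∀ i, k ∣ w i) → k = 1) (d N : ℕ)
    (hd : 0 < d) (h : ∀ i, d ∣ N * w i) : d ∣ N := by
  obtain ⟨G, hG, hG2⟩ : ∃ G, G = Nat.gcd d N ∧ G ∣ N := ⟨_, rfl, Nat.gcd_dvd_right d N⟩
  obtain ⟨d', N', hcop, hd', hN'⟩ := Nat.exists_coprime d N
  rw [← hG] at hd' hN'
  have hG0 : 0 < G := by rw [hG]; exact Nat.gcd_pos_of_pos_left _ hd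
  have h1 : d' = 1 := by
    apply hw
    intro i
    have h2 := h i
    rw [hd', hN', mul_comm d' G, mul_comm N' G, mul_assoc] at h2
    exact hcop.dvd_of_dvd_mul_left (Nat.dvd_of_mul_dvd_mul_left hG0 h2)
  rw [h1, one_mul] at hd'
  rw [hd']
  exact hG2

theorem aeval_indep {σ : Type} [DecidableEq σ] {w : σ → ℕ} {f : MvPolynomial σ ℂ} {d : ℕ}
    (hf : IsWeightedHomogeneous w f d) (i : σ) (hi : d < w i) (v : Pt ℂ σ)
    (c : AlgebraicClosure ℂ) : aeval (Function.update v i c) f = aeval v f := by
  classical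
  rw [aeval_def, aeval_def, eval₂_eq, eval₂_eq]
  refine Finset.sum_congr rfl fun s hs => ?_
  congr 1
  refine Finset.prod_congr rfl fun l hl => ?_
  have hli : l ≠ i := by
    rintro rfl
    have h1 := hf (mem_support_iff.1 hs)
    rw [Finsupp.weight_apply, Finsupp.sum] at h1
    have h2 : s l * w l ≤ ∑ a ∈ s.support, s a • w a :=
      Finset.single_le_sum (f := fun a => s a • w a) (fun _ _ => Nat.zero_le _) hl
    rw [h1] at h2
    have h3 : 1 ≤ s l := Nat.one_le_iff_ne_zero.2 (Finsupp.mem_support_iff.1 hl)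
    have h4 : 1 * w l ≤ s l * w l := Nat.mul_le_mul_right _ h3
    omega
  rw [Function.update_of_ne hli]

theorem t_GENV3 : S_REL3 → S_GENV3 := by
  intro hREL σ J _ g ι w d hgcd hd hg hind
  classical
  have hrel := hREL g ι w d hd hg hind
  choose! K m A hAh hAm hAK hA0' hsum using hrel
  obtain ⟨i₀, hi₀⟩ : ∃ i, w i ≠ 0 := by
    by_contra hcon
    push Not at hcon
    have := hgcd 0 (fun i => by rw [hcon i])
    exact absurd this (by norm_num)
  have hinj : Function.Injective (bind₁ (gY g ι w)) := hind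
  have hgY1 : ∀ i, w i ≠ 0 → gY g ι w i = g (ι i) := fun i hi => if_neg hi
  have hgY0 : ∀ i, w i = 0 → gY g ι w i = X i := fun i hi => if_pos hi
  have hg0 : ∀ i, gY g ι w i ≠ 0 := by
    intro i h
    have h1 : bind₁ (gY g ι w) (X i : MvPolynomial σ ℂ) = bind₁ (gY g ι w) 0 := by
      rw [bind₁_X_right, map_zero, h]
    exact X_ne_zero i (hinj h1)
  have hAne : ∀ i k, A i k ≠ 0 → bind₁ (gY g ι w) (A i k) ≠ 0 := by
    intro i k hk h
    exact hk (hinj (by rw [h, map_zero]))
  let H : MvPolynomial σ ℂ := ∏ i ∈ Finset.univ.filter (fun i => w i ≠ 0),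
    (bind₁ (gY g ι w) (A i (K i)) * bind₁ (gY g ι w) (A i 0) * gY g ι w i)
  have hH0 : H ≠ 0 := by
    refine Finset.prod_ne_zero_iff.2 fun i hi => ?_
    have hi' := (Finset.mem_filter.1 hi).2
    exact mul_ne_zero (mul_ne_zero (hAne i _ (hAK i hi')) (hAne i _ (hA0' i hi'))) (hg0 i)
  have hHv : ∀ v : Pt ℂ σ, aeval v H ≠ 0 → ∀ i, w i ≠ 0 →
      aeval (fun l => aeval v (gY g ι w l)) (A i (K i)) ≠ 0 ∧
      aeval (fun l => aeval v (gY g ι w l)) (A i 0) ≠ 0 ∧ aeval v (g (ι i)) ≠ 0 := by
    intro v hv i hi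
    simp only [H, map_prod, map_mul] at hv
    have h1 := Finset.prod_ne_zero_iff.1 hv i (Finset.mem_filter.2 ⟨Finset.mem_univ i, hi⟩)
    rw [aeval_bind₁, aeval_bind₁, hgY1 i hi] at h1
    exact ⟨left_ne_zero_of_mul (left_ne_zero_of_mul h1),
      right_ne_zero_of_mul (left_ne_zero_of_mul h1), right_ne_zero_of_mul h1⟩
  -- the relation at a point with values in an algebra
  have hrelS : ∀ {S : Type} [CommRing S] [Algebra ℂ S] (u : σ → S) (i : σ), w i ≠ 0 →
      ∑ k ∈ Finset.range (K i + 1), aeval (fun l => aeval u (gY g ι w l)) (A i k) * u i ^ k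
        = 0 := by
    intro S _ _ u i hi
    have h1 := congrArg (aeval u) (hsum i hi)
    rw [map_sum, map_zero] at h1
    rw [← h1]
    refine Finset.sum_congr rfl fun k _ => ?_
    rw [map_mul, map_pow, aeval_X, aeval_bind₁]
  -- the fibre is finite
  have hfib : ∀ v : Pt ℂ σ, aeval v H ≠ 0 →
      {u : Pt ℂ σ | (∀ i, w i = 0 → u i = v i) ∧ ∀ j, aeval u (g j) = aeval v (g j)}.Finite := by
    intro v hv
    let P : σ → Polynomial (AlgebraicClosure ℂ) := fun i =>
      if w i = 0 then Polynomial.X - Polynomial.C (v i)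
      else ∑ k ∈ Finset.range (K i + 1),
        Polynomial.C (aeval (fun l => aeval v (gY g ι w l)) (A i k)) * Polynomial.X ^ k
    have hP : ∀ i, P i ≠ 0 := by
      intro i h
      by_cases hi : w i = 0
      · simp only [P, if_pos hi] at h
        exact Polynomial.X_sub_C_ne_zero _ h
      · have h1 : (P i).coeff (K i) = aeval (fun l => aeval v (gY g ι w l)) (A i (K i)) := by
          simp only [P, if_neg hi, Polynomial.finsetSum_coeff, Polynomial.coeff_C_mul_X_pow]
          rw [Finset.sum_ite_eq (Finset.range (K i + 1)) (K i)]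
          simp
        rw [h, Polynomial.coeff_zero] at h1
        exact (hHv v hv i hi).1 h1.symm
    have hfin : (Set.univ.pi fun i => ((P i).roots.toFinset : Set (AlgebraicClosure ℂ))).Finite :=
      Set.Finite.pi fun i => Finset.finite_toSet _
    apply hfin.subset
    rintro u ⟨hu0, hu⟩ i _
    rw [Finset.mem_coe, Multiset.mem_toFinset, Polynomial.mem_roots (hP i), Polynomial.IsRoot.def]
    by_cases hi : w i = 0
    · simp only [P, if_pos hi, Polynomial.eval_sub, Polynomial.eval_X, Polynomial.eval_C]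
      rw [hu0 i hi, sub_self]
    · have h1 := hrelS u i hi
      have h2 : (fun l => aeval u (gY g ι w l)) = fun l => aeval v (gY g ι w l) := by
        funext l
        by_cases hl : w l = 0
        · rw [hgY0 l hl, aeval_X, aeval_X]
          exact hu0 l hl
        · rw [hgY1 l hl]; exact hu (ι l)
      rw [h2] at h1
      simp only [P, if_neg hi, Polynomial.eval_finsetSum, Polynomial.eval_mul, Polynomial.eval_C,
        Polynomial.eval_pow, Polynomial.eval_X]
      exact h1
  refine ⟨?_, H, hH0, ?_⟩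
  · -- the weights are at most `d`
    intro i
    by_contra hi
    push Not at hi
    obtain ⟨v, hv⟩ : ∃ v : Pt ℂ σ, aeval v H ≠ 0 := by
      by_contra hcon
      push Not at hcon
      apply hH0
      have h1 : map (algebraMap ℂ (AlgebraicClosure ℂ)) H = 0 := by
        apply MvPolynomial.funext
        intro x
        rw [eval_map, map_zero, ← aeval_def]
        exact hcon x
      exact (map_eq_zero_iff _ (map_injective _ (algebraMap ℂ (AlgebraicClosure ℂ)).injective)).1 h1
    have hwi : w i ≠ 0 := by omega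
    have h1 := hfib v hv
    have h2 : (Set.range fun c : AlgebraicClosure ℂ => Function.update v i c) ⊆
        {u : Pt ℂ σ | (∀ i, w i = 0 → u i = v i) ∧ ∀ j, aeval u (g j) = aeval v (g j)} := by
      rintro _ ⟨c, rfl⟩
      refine ⟨fun l hl => ?_, fun j => aeval_indep (hg j) i hi v c⟩
      have : l ≠ i := fun h => hwi (h ▸ hl)
      exact Function.update_of_ne this _ _
    have h3 : Set.Infinite (Set.range fun c : AlgebraicClosure ℂ => Function.update v i c) :=
      Set.infinite_range_of_injective (Function.update_injective v i)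
    exact h3 (h1.subset h2)
  intro v hv
  refine ⟨⟨ι i₀, (hHv v hv i₀ hi₀).2.2⟩, hfib v hv, ?_, ?_⟩
  · -- the points of the cone over the fibre have no zero coordinates
    intro u hu0 c hc hu i hi hui
    have h1 := hrelS u i hi
    rw [Finset.sum_eq_single 0] at h1
    · rw [pow_zero, mul_one] at h1
      have h2 : (fun l => aeval u (gY g ι w l)) =
          fun l => c ^ (if w l = 0 then 0 else 1) * aeval v (gY g ι w l) := by
        funext l
        by_cases hl : w l = 0
        · rw [hgY0 l hl, aeval_X, aeval_X, if_pos hl, pow_zero, one_mul]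
          exact hu0 l hl
        · rw [hgY1 l hl, if_neg hl, pow_one]; exact hu (ι l)
      rw [h2, whom_aeval (hAh i hi 0 (Nat.zero_le _))] at h1
      exact (mul_ne_zero (pow_ne_zero _ hc) (hHv v hv i hi).2.1) h1
    · intro k _ hk
      rw [hui, zero_pow hk, mul_zero]
    · intro h
      exact absurd (Finset.mem_range.2 (Nat.succ_pos _)) h
  · intro N
    ext z
    rw [mem_JetE, Set.mem_ofPred_eq]
    refine and_congr_right ?_
    intro hz0
    have hval : ∀ (a : ℕ) (u : σ → PowerSeries (AlgebraicClosure ℂ)),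
        (∀ i, PowerSeries.coeff 0 (u i) = if w i = 0 then jk z 0 i else jk z (a * w i) i) →
        (fun i => PowerSeries.coeff 0 (u i)) =
          fun i => if w i = 0 then v i else jk z (a * w i) i := by
      intro a u hu
      funext i
      rw [hu i]
      split_ifs with hi
      · rw [hz0]; simp only [if_pos hi]
      · rfl
    constructor
    · rintro ⟨hj, c, hc, he⟩
      choose G hG using hj
      have hG0 : ∀ j, PowerSeries.coeff 0 (G j) = c * aeval v (g j) := by
        intro j
        have h1 := he j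
        have h3 := PowerSeries.coeff_X_pow_mul (G j) N 0
        rw [zero_add] at h3
        rw [hG, h3] at h1
        exact h1
      let G' : σ → PowerSeries (AlgebraicClosure ℂ) := fun l =>
        if w l = 0 then ar z l else G (ι l)
      have h2 : (fun l => aeval (ar z) (gY g ι w l)) =
          fun l => (PowerSeries.X ^ N) ^ (if w l = 0 then 0 else 1) * G' l := by
        funext l
        by_cases hl : w l = 0
        · rw [hgY0 l hl, aeval_X, if_pos hl, pow_zero, one_mul]
          simp only [G', if_pos hl]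
        · rw [hgY1 l hl, hG, if_neg hl, pow_one]
          simp only [G', if_neg hl]
      have hG'0 : (fun l => PowerSeries.coeff 0 (G' l)) =
          fun l => c ^ (if w l = 0 then 0 else 1) * aeval v (gY g ι w l) := by
        funext l
        by_cases hl : w l = 0
        · rw [hgY0 l hl, aeval_X, if_pos hl, pow_zero, one_mul]
          simp only [G', if_pos hl]
          rw [Pool.Agent.D0H35.CX.coeff_ar, hz0]
          simp only [if_pos hl]
        · rw [hgY1 l hl, if_neg hl, pow_one]
          simp only [G', if_neg hl]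
          exact hG0 (ι l)
      have hBk : ∀ i, w i ≠ 0 → ∀ k ≤ K i,
          aeval (fun l => aeval v (gY g ι w l)) (A i k) ≠ 0 →
          PowerSeries.coeff 0 (aeval G' (A i k)) ≠ 0 := by
        intro i hi k hk hne
        rw [Pool.Agent.D0H35.CX.coeff_zero_aeval, hG'0, whom_aeval (hAh i hi k hk)]
        exact mul_ne_zero (pow_ne_zero _ hc) hne
      have hnew : ∀ i, w i ≠ 0 → ∃ (o : ℕ) (u : PowerSeries (AlgebraicClosure ℂ)),
          ar z i = PowerSeries.X ^ o * u ∧ PowerSeries.coeff 0 u ≠ 0 ∧ d * o = N * w i := by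
        intro i hi
        refine newton (K i) (m i) (fun k => aeval G' (A i k)) (ar z i) N d (w i) hd ?_ ?_ ?_ ?_
        · have h1 := hrelS (ar z) i hi
          rw [h2] at h1
          rw [← h1]
          refine Finset.sum_congr rfl fun k hk => ?_
          have hk' : k ≤ K i := Nat.lt_succ_iff.1 (Finset.mem_range.1 hk)
          rw [whom_aeval (hAh i hi k hk'), ← pow_mul, mul_assoc]
        · intro k hk hB
          refine hAm i hi k hk ?_
          intro h
          apply hB
          simp only [h, map_zero]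
        · exact hBk i hi (K i) le_rfl (hHv v hv i hi).1
        · exact hBk i hi 0 (Nat.zero_le _) (hHv v hv i hi).2.1
      have hdN : d ∣ N := by
        refine dvd_of_gcd w hgcd d N hd fun i => ?_
        by_cases hi : w i = 0
        · rw [hi, mul_zero]; exact dvd_zero _
        · obtain ⟨o, u, -, -, ho⟩ := hnew i hi
          exact ⟨o, ho.symm⟩
      obtain ⟨a, ha⟩ := hdN
      have hlt : ∀ i, w i ≠ 0 → ∀ k < a * w i, jk z k i = 0 := by
        intro i hi k hk
        obtain ⟨o, u, hu, -, ho⟩ := hnew i hi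
        have h3 : o = a * w i := by
          rw [ha, mul_assoc] at ho
          exact Nat.eq_of_mul_eq_mul_left hd ho
        rw [← Pool.Agent.D0H35.CX.coeff_ar, hu, PowerSeries.coeff_X_pow_mul', if_neg (by omega)]
      refine ⟨a, hlt, ⟨c, hc, fun j => ?_⟩, ha.symm⟩
      obtain ⟨u, hu, hu0⟩ := ar_factor3 w z a hlt
      have hu' : ar z = fun i => (PowerSeries.X ^ a) ^ w i * u i := funext hu
      have hgj : aeval (ar z) (g j) = PowerSeries.X ^ N * aeval u (g j) := by
        rw [hu', whom_aeval (hg j), ← pow_mul, mul_comm a d, ← ha]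
      have h3 := PowerSeries.coeff_X_pow_mul (aeval u (g j)) N 0
      rw [zero_add] at h3
      rw [← hval a u hu0, ← Pool.Agent.D0H35.CX.coeff_zero_aeval, ← h3, ← hgj, he j]
    · rintro ⟨a, hlt, ⟨c, hc, hcv⟩, hN⟩
      obtain ⟨u, hu, hu0⟩ := ar_factor3 w z a hlt
      have hu' : ar z = fun i => (PowerSeries.X ^ a) ^ w i * u i := funext hu
      have hgj : ∀ j, aeval (ar z) (g j) = PowerSeries.X ^ N * aeval u (g j) := by
        intro j
        rw [hu', whom_aeval (hg j), ← pow_mul, mul_comm a d, hN]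
      refine ⟨fun j => ⟨_, hgj j⟩, c, hc, fun j => ?_⟩
      have h3 := PowerSeries.coeff_X_pow_mul (aeval u (g j)) N 0
      rw [zero_add] at h3
      rw [hgj j, h3, Pool.Agent.D0H35.CX.coeff_zero_aeval, hval a u hu0, hcv j]

end Pool.Agent.D0H22.CX
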