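import Pool.Agent.D0H22.CX.RelCore
import Pool.Agent.D0H67.CX.Stm2

/-! Project CX (helper67), module REL. -/

set_option autoImplicit false

namespace Pool.Agent.D0H22.CX

open Pool.Agent.D0H67.CX in
theorem t_REL : S_REL := fun g d hd hg hind i => rel_core g d hd hg hind i

end Pool.Agent.D0H22.CX
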