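import Pool.Agent.D0H22.CX.Rel2Core
import Pool.Agent.D0H67.CX.Stm3

/-! Project CX (helper67), module REL2. -/

set_option autoImplicit false

namespace Pool.Agent.D0H22.CX

open MvPolynomial Pool.Agent.D0H67.CX

theorem gX_hom {σ J : Type} (g : J → MvPolynomial σ ℂ) (ι : σ → J) (w : σ → ℕ) (d : ℕ)
    (hw : ∀ i, w i ≤ 1) (hg : ∀ j, MvPolynomial.IsWeightedHomogeneous w (g j) d) (j : σ) :
    MvPolynomial.IsWeightedHomogeneous w (gX g ι w j) (d * w j) := by
  unfold gX
  split_ifs with h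
  · rw [h, mul_one]; exact hg _
  · have h0 : w j = 0 := by have := hw j; omega
    rw [h0, mul_zero]
    have h1 := isWeightedHomogeneous_X ℂ w j
    rwa [h0] at h1

theorem t_REL2 : S_REL2 := fun g ι w d hw hd hg hind i hi =>
  rel_core2 (gX g ι w) w d hd (gX_hom g ι w d hw hg) hind i hi

end Pool.Agent.D0H22.CX
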