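import Mathlib

/-! Project CX (helper67), module REL2: weighted homogeneous algebraic relations (core, Mathlib only). -/

set_option autoImplicit false
set_option linter.unusedVariables false

namespace Pool.Agent.D0H22.CX

open MvPolynomial

lemma wsum {σ : Type} (w : σ → ℕ) (a : MvPolynomial σ ℂ) :
    ∑ m ∈ Finset.range (weightedTotalDegree w a + 1), weightedHomogeneousComponent w m a = a := by
  classical
  ext1 s
  simp only [coeff_sum, coeff_weightedHomogeneousComponent]
  rw [Finset.sum_ite_eq]
  split_ifs with h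
  · rfl
  · by_contra h0
    apply h
    rw [Finset.mem_range, Nat.lt_succ_iff]
    exact le_weightedTotalDegree w (mem_support_iff.2 (Ne.symm h0))

lemma wbind {σ τ : Type} (w : σ → ℕ) (w' : τ → ℕ) (d : ℕ) (h : σ → MvPolynomial τ ℂ)
    (hh : ∀ i, IsWeightedHomogeneous w' (h i) (d * w i)) {a : MvPolynomial σ ℂ} {m : ℕ}
    (ha : IsWeightedHomogeneous w a m) : IsWeightedHomogeneous w' (bind₁ h a) (d * m) := by
  classical
  have h0 : bind₁ h a = ∑ s ∈ a.support, bind₁ h (monomial s (coeff s a)) := by
    conv_lhs => rw [as_sum a, map_sum]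
  rw [h0]
  apply IsWeightedHomogeneous.sum
  intro s hs
  rw [bind₁_monomial]
  have h1 := IsWeightedHomogeneous.prod s.support (fun i => h i ^ s i)
    (fun i => s i • (d * w i)) (fun i _ => (hh i).pow (s i))
  have h2 : ∑ i ∈ s.support, s i • (d * w i) = d * m := by
    rw [← ha (mem_support_iff.1 hs), Finsupp.weight_apply, Finsupp.sum, Finset.mul_sum]
    refine Finset.sum_congr rfl fun i _ => ?_
    simp only [smul_eq_mul]
    ring
  rw [h2] at h1
  exact h1.C_mul _

lemma hc_bind2 {σ τ : Type} (w : σ → ℕ) (w' : τ → ℕ) (h : σ → MvPolynomial τ ℂ) (d : ℕ)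
    (hd : 0 < d) (hh : ∀ i, IsWeightedHomogeneous w' (h i) (d * w i)) (i : τ) (hi : w' i = 1)
    (a : MvPolynomial σ ℂ) (k e : ℕ) :
    weightedHomogeneousComponent w' e (bind₁ h a * X i ^ k) =
      bind₁ h (if k ≤ e ∧ d ∣ e - k then weightedHomogeneousComponent w ((e - k) / d) a else 0) *
        X i ^ k := by
  have h1 : ∀ m, IsWeightedHomogeneous w' (bind₁ h (weightedHomogeneousComponent w m a) * X i ^ k)
      (d * m + k) := by
    intro m
    have h2 : IsWeightedHomogeneous w' (bind₁ h (weightedHomogeneousComponent w m a)) (d * m) :=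
      wbind w w' d h hh (weightedHomogeneousComponent_isWeightedHomogeneous m a)
    have h3 : IsWeightedHomogeneous w' ((X i : MvPolynomial τ ℂ) ^ k) (k • w' i) :=
      (isWeightedHomogeneous_X ℂ w' i).pow k
    rw [hi, smul_eq_mul, mul_one] at h3
    exact h2.mul h3
  conv_lhs => rw [← wsum w a, map_sum, Finset.sum_mul, map_sum]
  have h4 : ∀ m ∈ Finset.range (weightedTotalDegree w a + 1),
      weightedHomogeneousComponent w' e (bind₁ h (weightedHomogeneousComponent w m a) * X i ^ k) =
      if e = d * m + k then bind₁ h (weightedHomogeneousComponent w m a) * X i ^ k else 0 := by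
    intro m _
    exact weightedHomogeneousComponent_of_mem ((mem_weightedHomogeneousSubmodule ℂ w' _ _).2 (h1 m))
  rw [Finset.sum_congr rfl h4]
  by_cases hk : k ≤ e ∧ d ∣ e - k
  · rw [if_pos hk]
    obtain ⟨hk1, c, hc⟩ := hk
    have hc' : (e - k) / d = c := by rw [hc, Nat.mul_div_cancel_left c hd]
    rw [hc']
    have h5 : ∀ m, (e = d * m + k) ↔ m = c := by
      intro m
      constructor
      · intro h
        have : d * m = d * c := by omega
        exact Nat.eq_of_mul_eq_mul_left hd this
      · rintro rfl; omega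
    simp_rw [h5]
    rw [Finset.sum_ite_eq' (Finset.range (weightedTotalDegree w a + 1)) c]
    split_ifs with h6
    · rfl
    · have h7 : weightedTotalDegree w a < c := by
        rw [Finset.mem_range] at h6; omega
      rw [weightedHomogeneousComponent_eq_zero _ _ h7, map_zero, zero_mul]
  · rw [if_neg hk, map_zero, zero_mul]
    apply Finset.sum_eq_zero
    intro m _
    rw [if_neg]
    intro h
    apply hk
    refine ⟨by omega, m, by omega⟩

theorem rel_core2 {σ : Type} [Fintype σ] (g : σ → MvPolynomial σ ℂ) (w : σ → ℕ) (d : ℕ) (hd : 0 < d)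
    (hg : ∀ j, IsWeightedHomogeneous w (g j) (d * w j)) (hind : AlgebraicIndependent ℂ g) (i : σ)
    (hi : w i = 1) :
    ∃ (K : ℕ) (m : ℕ → ℕ) (A : ℕ → MvPolynomial σ ℂ),
      (∀ k ≤ K, IsWeightedHomogeneous w (A k) (m k)) ∧
      (∀ k ≤ K, A k ≠ 0 → d * m k + k = d * m K + K) ∧ A K ≠ 0 ∧
      ∑ k ∈ Finset.range (K + 1), bind₁ g (A k) * X i ^ k = 0 := by
  classical
  have hB : IsTranscendenceBasis ℂ g := by
    apply hind.isTranscendenceBasis_of_trdeg_le_of_finite
    rw [MvPolynomial.trdeg_of_isDomain]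
    simp
  have halg := hB.isAlgebraic
  obtain ⟨P, hP0, hP⟩ := halg.isAlgebraic (X i : MvPolynomial σ ℂ)
  -- the coefficients
  have hcoef : ∀ k, ∃ a : MvPolynomial σ ℂ, bind₁ g a = (P.coeff k : MvPolynomial σ ℂ) := by
    intro k
    have h1 : (P.coeff k : MvPolynomial σ ℂ) ∈ (aeval g : MvPolynomial σ ℂ →ₐ[ℂ] _).range := by
      rw [← Algebra.adjoin_range_eq_range_aeval]
      exact (P.coeff k).2
    obtain ⟨a, ha⟩ := h1
    exact ⟨a, ha⟩
  choose a ha using hcoef
  set D := P.natDegree with hD
  have hrel : ∑ k ∈ Finset.range (D + 1), bind₁ g (a k) * X i ^ k = 0 := by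
    rw [Polynomial.aeval_eq_sum_range] at hP
    rw [← hP]
    refine Finset.sum_congr rfl fun k _ => ?_
    rw [ha k, Algebra.smul_def]
    rfl
  have haD : a D ≠ 0 := by
    intro h
    have h1 := ha D
    rw [h, map_zero] at h1
    have h2 : P.coeff D = 0 := Subtype.ext h1.symm
    rw [hD, Polynomial.coeff_natDegree, Polynomial.leadingCoeff_eq_zero] at h2
    exact hP0 h2
  obtain ⟨m₀, hm₀⟩ : ∃ m₀, weightedHomogeneousComponent w m₀ (a D) ≠ 0 := by
    by_contra hcon
    push Not at hcon
    apply haD
    rw [← wsum w (a D)]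
    exact Finset.sum_eq_zero fun m _ => hcon m
  set e := d * m₀ + D with he
  let A : ℕ → MvPolynomial σ ℂ := fun k =>
    if k ≤ e ∧ d ∣ e - k then weightedHomogeneousComponent w ((e - k) / d) (a k) else 0
  have hAD : A D ≠ 0 := by
    have h1 : D ≤ e ∧ d ∣ e - D := ⟨by omega, m₀, by omega⟩
    have h2 : (e - D) / d = m₀ := by
      have : e - D = d * m₀ := by omega
      rw [this, Nat.mul_div_cancel_left _ hd]
    simp only [A]
    rw [if_pos h1, h2]
    exact hm₀
  refine ⟨D, fun k => (e - k) / d, A, ?_, ?_, hAD, ?_⟩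
  · intro k _
    simp only [A]
    split_ifs
    · exact weightedHomogeneousComponent_isWeightedHomogeneous _ _
    · exact isWeightedHomogeneous_zero _ _ _
  · intro k hk hk0
    have h1 : k ≤ e ∧ d ∣ e - k := by
      by_contra h
      exact hk0 (if_neg h)
    obtain ⟨h2, c, hc⟩ := h1
    have h3 : (e - k) / d = c := by rw [hc, Nat.mul_div_cancel_left c hd]
    have h4 : (e - D) / d = m₀ := by
      have : e - D = d * m₀ := by omega
      rw [this, Nat.mul_div_cancel_left _ hd]
    simp only [h3, h4]
    omega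
  · have h1 := congrArg (weightedHomogeneousComponent w e) hrel
    rw [map_sum, map_zero] at h1
    rw [← h1]
    exact Finset.sum_congr rfl fun k _ => (hc_bind2 w w g d hd hg i hi (a k) k e).symm

end Pool.Agent.D0H22.CX
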