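import Pool.Agent.D0H22.CX.Rel3Core
import Pool.Agent.D0H67.CX.Stm4

/-! Project CX (helper67), module REL3. -/

set_option autoImplicit false

namespace Pool.Agent.D0H22.CX

open MvPolynomial Pool.Agent.D0H67.CX

theorem gY_hom {σ J : Type} (g : J → MvPolynomial σ ℂ) (ι : σ → J) (w : σ → ℕ) (d : ℕ)
    (hg : ∀ j, MvPolynomial.IsWeightedHomogeneous w (g j) d) (j : σ) :
    MvPolynomial.IsWeightedHomogeneous w (gY g ι w j) (d * (if w j = 0 then 0 else 1)) := by
  unfold gY
  split_ifs with h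
  · rw [mul_zero]
    have h1 := isWeightedHomogeneous_X ℂ w j
    rwa [h] at h1
  · rw [mul_one]; exact hg _

theorem t_REL3 : S_REL3 := fun g ι w d hd hg hind i _ =>
  rel_core3 (gY g ι w) w (fun l => if w l = 0 then 0 else 1) d hd (gY_hom g ι w d hg) hind i

end Pool.Agent.D0H22.CX
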