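import Pool.Agent.D0H22.CX.Rel2Core

/-! Project CX (helper67), module REL3: weighted homogeneous algebraic relations (core, Mathlib only). -/

set_option autoImplicit false
set_option linter.unusedVariables false

namespace Pool.Agent.D0H22.CX

open MvPolynomial

lemma hc_bind3 {σ τ : Type} (w : σ → ℕ) (w' : τ → ℕ) (h : σ → MvPolynomial τ ℂ) (d : ℕ)
    (hd : 0 < d) (hh : ∀ i, IsWeightedHomogeneous w' (h i) (d * w i)) (i : τ)
    (a : MvPolynomial σ ℂ) (k e : ℕ) :
    weightedHomogeneousComponent w' e (bind₁ h a * X i ^ k) =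
      bind₁ h (if k * w' i ≤ e ∧ d ∣ e - k * w' i then
        weightedHomogeneousComponent w ((e - k * w' i) / d) a else 0) * X i ^ k := by
  have h1 : ∀ m, IsWeightedHomogeneous w' (bind₁ h (weightedHomogeneousComponent w m a) * X i ^ k)
      (d * m + k * w' i) := by
    intro m
    have h2 : IsWeightedHomogeneous w' (bind₁ h (weightedHomogeneousComponent w m a)) (d * m) :=
      wbind w w' d h hh (weightedHomogeneousComponent_isWeightedHomogeneous m a)
    have h3 : IsWeightedHomogeneous w' ((X i : MvPolynomial τ ℂ) ^ k) (k • w' i) :=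
      (isWeightedHomogeneous_X ℂ w' i).pow k
    rw [smul_eq_mul] at h3
    exact h2.mul h3
  conv_lhs => rw [← wsum w a, map_sum, Finset.sum_mul, map_sum]
  have h4 : ∀ m ∈ Finset.range (weightedTotalDegree w a + 1),
      weightedHomogeneousComponent w' e (bind₁ h (weightedHomogeneousComponent w m a) * X i ^ k) =
      if e = d * m + k * w' i then bind₁ h (weightedHomogeneousComponent w m a) * X i ^ k
        else 0 := by
    intro m _
    exact weightedHomogeneousComponent_of_mem ((mem_weightedHomogeneousSubmodule ℂ w' _ _).2 (h1 m))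
  rw [Finset.sum_congr rfl h4]
  set kw := k * w' i with hkw
  by_cases hk : kw ≤ e ∧ d ∣ e - kw
  · rw [if_pos hk]
    obtain ⟨hk1, c, hc⟩ := hk
    have hc' : (e - kw) / d = c := by rw [hc, Nat.mul_div_cancel_left c hd]
    rw [hc']
    have h5 : ∀ m, (e = d * m + kw) ↔ m = c := by
      intro m
      constructor
      · intro h
        have : d * m = d * c := by omega
        exact Nat.eq_of_mul_eq_mul_left hd this
      · rintro rfl; omega
    simp_rw [h5]
    rw [Finset.sum_ite_eq' (Finset.range (weightedTotalDegree w a + 1)) c]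
    split_ifs with h6
    · rfl
    · have h7 : weightedTotalDegree w a < c := by
        rw [Finset.mem_range] at h6; omega
      rw [weightedHomogeneousComponent_eq_zero _ _ h7, map_zero, zero_mul]
  · rw [if_neg hk, map_zero, zero_mul]
    apply Finset.sum_eq_zero
    intro m _
    rw [if_neg]
    intro h
    apply hk
    refine ⟨by omega, m, by omega⟩

theorem rel_core3 {σ : Type} [Fintype σ] (g : σ → MvPolynomial σ ℂ) (w w₁ : σ → ℕ) (d : ℕ)
    (hd : 0 < d) (hg : ∀ j, IsWeightedHomogeneous w (g j) (d * w₁ j))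
    (hind : AlgebraicIndependent ℂ g) (i : σ) :
    ∃ (K : ℕ) (m : ℕ → ℕ) (A : ℕ → MvPolynomial σ ℂ),
      (∀ k ≤ K, IsWeightedHomogeneous w₁ (A k) (m k)) ∧
      (∀ k ≤ K, A k ≠ 0 → d * m k + k * w i = d * m K + K * w i) ∧ A K ≠ 0 ∧ A 0 ≠ 0 ∧
      ∑ k ∈ Finset.range (K + 1), bind₁ g (A k) * X i ^ k = 0 := by
  classical
  have hB : IsTranscendenceBasis ℂ g := by
    apply hind.isTranscendenceBasis_of_trdeg_le_of_finite
    rw [MvPolynomial.trdeg_of_isDomain]
    simp
  have halg := hB.isAlgebraic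
  obtain ⟨P, hP0, hP⟩ := halg.isAlgebraic (X i : MvPolynomial σ ℂ)
  -- the coefficients
  have hcoef : ∀ k, ∃ a : MvPolynomial σ ℂ, bind₁ g a = (P.coeff k : MvPolynomial σ ℂ) := by
    intro k
    have h1 : (P.coeff k : MvPolynomial σ ℂ) ∈ (aeval g : MvPolynomial σ ℂ →ₐ[ℂ] _).range := by
      rw [← Algebra.adjoin_range_eq_range_aeval]
      exact (P.coeff k).2
    obtain ⟨a, ha⟩ := h1
    exact ⟨a, ha⟩
  choose a ha using hcoef
  set D := P.natDegree with hD
  have hrel : ∑ k ∈ Finset.range (D + 1), bind₁ g (a k) * X i ^ k = 0 := by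
    rw [Polynomial.aeval_eq_sum_range] at hP
    rw [← hP]
    refine Finset.sum_congr rfl fun k _ => ?_
    rw [ha k, Algebra.smul_def]
    rfl
  have haD : a D ≠ 0 := by
    intro h
    have h1 := ha D
    rw [h, map_zero] at h1
    have h2 : P.coeff D = 0 := Subtype.ext h1.symm
    rw [hD, Polynomial.coeff_natDegree, Polynomial.leadingCoeff_eq_zero] at h2
    exact hP0 h2
  obtain ⟨m₀, hm₀⟩ : ∃ m₀, weightedHomogeneousComponent w₁ m₀ (a D) ≠ 0 := by
    by_contra hcon
    push Not at hcon
    apply haD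
    rw [← wsum w₁ (a D)]
    exact Finset.sum_eq_zero fun m _ => hcon m
  set e := d * m₀ + D * w i with he
  let A : ℕ → MvPolynomial σ ℂ := fun k =>
    if k * w i ≤ e ∧ d ∣ e - k * w i then
      weightedHomogeneousComponent w₁ ((e - k * w i) / d) (a k) else 0
  let m : ℕ → ℕ := fun k => (e - k * w i) / d
  have hmD : m D = m₀ := by
    have : e - D * w i = d * m₀ := by omega
    simp only [m]
    rw [this, Nat.mul_div_cancel_left _ hd]
  have hAD : A D ≠ 0 := by
    have h1 : D * w i ≤ e ∧ d ∣ e - D * w i := ⟨by omega, m₀, by omega⟩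
    have h2 : (e - D * w i) / d = m₀ := hmD
    simp only [A]
    rw [if_pos h1, h2]
    exact hm₀
  have hAh : ∀ k, IsWeightedHomogeneous w₁ (A k) (m k) := by
    intro k
    simp only [A]
    split_ifs
    · exact weightedHomogeneousComponent_isWeightedHomogeneous _ _
    · exact isWeightedHomogeneous_zero _ _ _
  have hAm : ∀ k, A k ≠ 0 → d * m k + k * w i = e := by
    intro k hk0
    have h1 : k * w i ≤ e ∧ d ∣ e - k * w i := by
      by_contra h
      exact hk0 (if_neg h)
    obtain ⟨h2, c, hc⟩ := h1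
    have h3 : (e - k * w i) / d = c := by rw [hc, Nat.mul_div_cancel_left c hd]
    simp only [m, h3]
    omega
  have hAsum : ∑ k ∈ Finset.range (D + 1), bind₁ g (A k) * X i ^ k = 0 := by
    have h1 := congrArg (weightedHomogeneousComponent w e) hrel
    rw [map_sum, map_zero] at h1
    rw [← h1]
    exact Finset.sum_congr rfl fun k _ => (hc_bind3 w₁ w g d hd hg i (a k) k e).symm
  -- division by a power of `X i`
  have hex : ∃ k, A k ≠ 0 := ⟨D, hAD⟩
  let k₀ := Nat.find hex
  have hk₀ : A k₀ ≠ 0 := Nat.find_spec hex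
  have hk₀' : ∀ k < k₀, A k = 0 := fun k hk => not_not.1 (Nat.find_min hex hk)
  have hk₀D : k₀ ≤ D := Nat.find_min' hex hAD
  obtain ⟨K, hK⟩ := Nat.exists_eq_add_of_le hk₀D
  refine ⟨K, fun k => m (k₀ + k), fun k => A (k₀ + k), fun k _ => hAh _, ?_, ?_, ?_, ?_⟩
  · intro k _ hk
    have h1 := hAm _ hk
    have h2 := hAm D hAD
    rw [hK] at h2
    have h3 : (k₀ + k) * w i = k₀ * w i + k * w i := by ring
    have h4 : (k₀ + K) * w i = k₀ * w i + K * w i := by ring
    rw [h3] at h1
    rw [h4] at h2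
    show d * m (k₀ + k) + k * w i = d * m (k₀ + K) + K * w i
    omega
  · show A (k₀ + K) ≠ 0
    rw [← hK]; exact hAD
  · exact hk₀
  · have h1 : ∑ k ∈ Finset.range (D + 1), bind₁ g (A k) * X i ^ k =
        X i ^ k₀ * ∑ k ∈ Finset.range (K + 1), bind₁ g (A (k₀ + k)) * X i ^ k := by
      have h2 : D + 1 = k₀ + (K + 1) := by omega
      rw [h2, Finset.sum_range_add, Finset.mul_sum]
      have h3 : ∑ k ∈ Finset.range k₀, bind₁ g (A k) * X i ^ k = 0 := by
        apply Finset.sum_eq_zero
        intro k hk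
        rw [hk₀' k (Finset.mem_range.1 hk), map_zero, zero_mul]
      rw [h3, zero_add]
      refine Finset.sum_congr rfl fun k _ => ?_
      rw [pow_add]
      ring
    rw [h1] at hAsum
    exact (mul_eq_zero.1 hAsum).resolve_left (pow_ne_zero _ (X_ne_zero i))

end Pool.Agent.D0H22.CX
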