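import Mathlib

/-! Project CX (helper67), module REL: homogeneous algebraic relations (core, Mathlib only). -/

set_option autoImplicit false
set_option linter.unusedVariables false

namespace Pool.Agent.D0H22.CX

open MvPolynomial

lemma hc_bind {σ τ : Type} (g : σ → MvPolynomial τ ℂ) (d : ℕ) (hd : 0 < d)
    (hg : ∀ j, (g j).IsHomogeneous d) (i : τ) (a : MvPolynomial σ ℂ) (k e : ℕ) :
    homogeneousComponent e (bind₁ g a * X i ^ k) =
      bind₁ g (if k ≤ e ∧ d ∣ e - k then homogeneousComponent ((e - k) / d) a else 0) * X i ^ k := by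
  have h1 : ∀ m, (bind₁ g (homogeneousComponent m a) * X i ^ k).IsHomogeneous (d * m + k) := by
    intro m
    have h2 : (bind₁ g (homogeneousComponent m a)).IsHomogeneous (d * m) :=
      (homogeneousComponent_isHomogeneous m a).aeval g hg
    have h3 : ((X i : MvPolynomial τ ℂ) ^ k).IsHomogeneous (1 * k) := (isHomogeneous_X ℂ i).pow k
    rw [one_mul] at h3
    exact h2.mul h3
  conv_lhs => rw [← sum_homogeneousComponent a, map_sum, Finset.sum_mul, map_sum]
  have h4 : ∀ m ∈ Finset.range (a.totalDegree + 1),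
      homogeneousComponent e (bind₁ g (homogeneousComponent m a) * X i ^ k) =
      if e = d * m + k then bind₁ g (homogeneousComponent m a) * X i ^ k else 0 := by
    intro m _
    exact homogeneousComponent_of_mem ((mem_homogeneousSubmodule _ _).2 (h1 m))
  rw [Finset.sum_congr rfl h4]
  by_cases hk : k ≤ e ∧ d ∣ e - k
  · rw [if_pos hk]
    obtain ⟨hk1, c, hc⟩ := hk
    have hc' : (e - k) / d = c := by rw [hc, Nat.mul_div_cancel_left c hd]
    rw [hc']
    have h5 : ∀ m, (e = d * m + k) ↔ m = c := by
      intro m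
      constructor
      · intro h
        have : d * m = d * c := by omega
        exact Nat.eq_of_mul_eq_mul_left hd this
      · rintro rfl; omega
    simp_rw [h5]
    rw [Finset.sum_ite_eq' (Finset.range (a.totalDegree + 1)) c]
    split_ifs with h6
    · rfl
    · have h7 : a.totalDegree < c := by
        rw [Finset.mem_range] at h6; omega
      rw [homogeneousComponent_eq_zero _ _ h7, map_zero, zero_mul]
  · rw [if_neg hk, map_zero, zero_mul]
    apply Finset.sum_eq_zero
    intro m _
    rw [if_neg]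
    intro h
    apply hk
    refine ⟨by omega, m, by omega⟩

theorem rel_core {σ : Type} [Fintype σ] (g : σ → MvPolynomial σ ℂ) (d : ℕ) (hd : 0 < d)
    (hg : ∀ j, (g j).IsHomogeneous d) (hind : AlgebraicIndependent ℂ g) (i : σ) :
    ∃ (K : ℕ) (m : ℕ → ℕ) (A : ℕ → MvPolynomial σ ℂ), (∀ k ≤ K, (A k).IsHomogeneous (m k)) ∧
      (∀ k ≤ K, A k ≠ 0 → d * m k + k = d * m K + K) ∧ A K ≠ 0 ∧
      ∑ k ∈ Finset.range (K + 1), bind₁ g (A k) * X i ^ k = 0 := by
  classical
  have hB : IsTranscendenceBasis ℂ g := by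
    apply hind.isTranscendenceBasis_of_trdeg_le_of_finite
    rw [MvPolynomial.trdeg_of_isDomain]
    simp
  have halg := hB.isAlgebraic
  obtain ⟨P, hP0, hP⟩ := halg.isAlgebraic (X i : MvPolynomial σ ℂ)
  -- the coefficients
  have hcoef : ∀ k, ∃ a : MvPolynomial σ ℂ, bind₁ g a = (P.coeff k : MvPolynomial σ ℂ) := by
    intro k
    have h1 : (P.coeff k : MvPolynomial σ ℂ) ∈ (aeval g : MvPolynomial σ ℂ →ₐ[ℂ] _).range := by
      rw [← Algebra.adjoin_range_eq_range_aeval]
      exact (P.coeff k).2
    obtain ⟨a, ha⟩ := h1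
    exact ⟨a, ha⟩
  choose a ha using hcoef
  set D := P.natDegree with hD
  have hrel : ∑ k ∈ Finset.range (D + 1), bind₁ g (a k) * X i ^ k = 0 := by
    rw [Polynomial.aeval_eq_sum_range] at hP
    rw [← hP]
    refine Finset.sum_congr rfl fun k _ => ?_
    rw [ha k, Algebra.smul_def]
    rfl
  have haD : a D ≠ 0 := by
    intro h
    have h1 := ha D
    rw [h, map_zero] at h1
    have h2 : P.coeff D = 0 := Subtype.ext h1.symm
    rw [hD, Polynomial.coeff_natDegree, Polynomial.leadingCoeff_eq_zero] at h2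
    exact hP0 h2
  obtain ⟨m₀, hm₀⟩ : ∃ m₀, homogeneousComponent m₀ (a D) ≠ 0 := by
    by_contra hcon
    push Not at hcon
    apply haD
    rw [← sum_homogeneousComponent (a D)]
    exact Finset.sum_eq_zero fun m _ => hcon m
  set e := d * m₀ + D with he
  let A : ℕ → MvPolynomial σ ℂ := fun k =>
    if k ≤ e ∧ d ∣ e - k then homogeneousComponent ((e - k) / d) (a k) else 0
  have hAD : A D ≠ 0 := by
    have h1 : D ≤ e ∧ d ∣ e - D := ⟨by omega, m₀, by omega⟩
    have h2 : (e - D) / d = m₀ := by
      have : e - D = d * m₀ := by omega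
      rw [this, Nat.mul_div_cancel_left _ hd]
    simp only [A]
    rw [if_pos h1, h2]
    exact hm₀
  refine ⟨D, fun k => (e - k) / d, A, ?_, ?_, hAD, ?_⟩
  · intro k _
    simp only [A]
    split_ifs
    · exact homogeneousComponent_isHomogeneous _ _
    · exact isHomogeneous_zero _ _ _
  · intro k hk hk0
    have h1 : k ≤ e ∧ d ∣ e - k := by
      by_contra h
      exact hk0 (if_neg h)
    obtain ⟨h2, c, hc⟩ := h1
    have h3 : (e - k) / d = c := by rw [hc, Nat.mul_div_cancel_left c hd]
    have h4 : (e - D) / d = m₀ := by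
      have : e - D = d * m₀ := by omega
      rw [this, Nat.mul_div_cancel_left _ hd]
    simp only [h3, h4]
    omega
  · have h1 := congrArg (homogeneousComponent e) hrel
    rw [map_sum, map_zero] at h1
    rw [← h1]
    exact Finset.sum_congr rfl fun k _ => (hc_bind g d hd hg i (a k) k e).symm

end Pool.Agent.D0H22.CX
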